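import Pool.Agent.Helper10.RS.Goals

set_option autoImplicit false

open Finset

namespace Pool.Agent.Helper73.RS

open Pool.Agent.Helper10.RS

/-- The order of the centralizer of a permutation with parts `s`. -/
def DD (s : Multiset ℕ) : ℕ := s.prod * ∏ k ∈ s.toFinset, (s.count k).factorial

theorem DD_cons (k : ℕ) (s : Multiset ℕ) : DD (k ::ₘ s) = k * (s.count k + 1) * DD s := by
  unfold DD
  rw [Multiset.prod_cons, Multiset.toFinset_cons]
  have h1 : ∏ j ∈ insert k s.toFinset, ((k ::ₘ s).count j).factorial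
      = (s.count k + 1).factorial * ∏ j ∈ (s.toFinset).erase k, (s.count j).factorial := by
    rw [← Finset.mul_prod_erase (insert k s.toFinset) _ (Finset.mem_insert_self k _)]
    rw [Multiset.count_cons_self, Finset.erase_insert_eq_erase]
    congr 1
    apply Finset.prod_congr rfl
    intro j hj
    rw [Multiset.count_cons_of_ne (Finset.ne_of_mem_erase hj)]
  have h2 : ∏ j ∈ s.toFinset, (s.count j).factorial
      = (s.count k).factorial * ∏ j ∈ (s.toFinset).erase k, (s.count j).factorial := by
    by_cases hk : k ∈ s.toFinset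
    · exact (Finset.mul_prod_erase s.toFinset (fun j => (s.count j).factorial) hk).symm
    · rw [Finset.erase_eq_of_notMem hk]
      have : s.count k = 0 := by simpa using hk
      rw [this]; simp
  rw [h1, h2, Nat.factorial_succ]; ring

theorem DD_pos (s : Multiset ℕ) (hs : ∀ a ∈ s, 0 < a) : 0 < DD s := by
  unfold DD
  apply Nat.mul_pos
  · exact Multiset.prod_pos hs
  · exact Finset.prod_pos fun i _ => Nat.factorial_pos _

theorem DD_ones (m : Multiset ℕ) (hm : ∀ a ∈ m, 2 ≤ a) (c : ℕ) :
    DD (m + Multiset.replicate c 1) = c.factorial * m.prod * ∏ k ∈ m.toFinset, (m.count k).factorial := by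
  induction c with
  | zero => simp [DD]
  | succ c ih =>
    rw [Multiset.replicate_succ, Multiset.add_cons, DD_cons, ih]
    have : (m + Multiset.replicate c 1).count 1 = c := by
      rw [Multiset.count_add, Multiset.count_replicate_self,
        Multiset.count_eq_zero_of_notMem (fun h => by have := hm 1 h; omega), zero_add]
    rw [this, Nat.factorial_succ]; ring

theorem split_parts (m : Multiset ℕ) (hm : ∀ a ∈ m, 0 < a) :
    m = m.filter (2 ≤ ·) + Multiset.replicate (m.sum - (m.filter (2 ≤ ·)).sum) 1 := by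
  have h1 : m.filter (fun a => ¬ 2 ≤ a) = Multiset.replicate (m.filter (fun a => ¬ 2 ≤ a)).card 1 := by
    rw [Multiset.eq_replicate]
    refine ⟨rfl, fun b hb => ?_⟩
    have h2 := Multiset.mem_filter.1 hb
    have := hm b h2.1
    have := h2.2
    omega
  have h3 := Multiset.filter_add_not (2 ≤ ·) m
  have h4 : m.sum = (m.filter (2 ≤ ·)).sum + (m.filter (fun a => ¬ 2 ≤ a)).card := by
    conv_lhs => rw [← h3]
    rw [Multiset.sum_add]
    congr 1
    conv_lhs => rw [h1]
    simp
  have h5 : m.sum - (m.filter (2 ≤ ·)).sum = (m.filter (fun a => ¬ 2 ≤ a)).card := by omega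
  rw [h5, ← h1, h3]

theorem card_parts {α : Type*} [Fintype α] [DecidableEq α] (p : (Fintype.card α).Partition) :
    #({g | g.partition = p} : Finset (Equiv.Perm α)) * DD p.parts = (Fintype.card α).factorial := by
  have hs := split_parts p.parts (fun a ha => p.parts_pos ha)
  rw [p.parts_sum] at hs
  set m := p.parts.filter (2 ≤ ·) with hm
  have hm2 : ∀ a ∈ m, 2 ≤ a := fun a ha => (Multiset.mem_filter.1 ha).2
  have hle : m.sum ≤ Fintype.card α := by
    have h1 : m ≤ p.parts := Multiset.filter_le _ _
    obtain ⟨u, hu⟩ := Multiset.le_iff_exists_add.1 h1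
    have h2 := p.parts_sum
    rw [hu, Multiset.sum_add] at h2
    omega
  have h1 : ({g | g.partition = p} : Finset (Equiv.Perm α))
      = ({g | g.cycleType = m} : Finset (Equiv.Perm α)) := by
    ext g
    simp only [Finset.mem_filter, Finset.mem_univ, true_and]
    constructor
    · intro h
      rw [hm, ← h, Equiv.Perm.filter_parts_partition_eq_cycleType]
    · intro h
      rw [Nat.Partition.ext_iff, Equiv.Perm.parts_partition, ← Equiv.Perm.sum_cycleType, h, ← hs]
  rw [h1]
  have h2 := Equiv.Perm.card_of_cycleType_mul_eq α m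
  rw [if_pos ⟨hle, hm2⟩] at h2
  rw [← h2]
  congr 1
  conv_lhs => rw [hs]
  exact DD_ones m hm2 _

/-- The weight of a partition. -/
noncomputable def zz (w : ℕ → ℚ) (s : Multiset ℕ) : ℚ := (s.map w).prod / DD s

/-- The sum over the partitions. -/
noncomputable def TT (w : ℕ → ℚ) (n : ℕ) : ℚ := ∑ p : n.Partition, zz w p.parts

theorem sum_perm {α : Type*} [Fintype α] [DecidableEq α] (w : ℕ → ℚ) (n : ℕ)
    (hn : Fintype.card α = n) :
    (∑ σ : Equiv.Perm α, (σ.partition.parts.map w).prod) / n.factorial = TT w n := by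
  subst hn
  unfold TT
  rw [← Finset.sum_fiberwise' (Finset.univ : Finset (Equiv.Perm α)) (fun σ => σ.partition)
    (fun p => (p.parts.map w).prod), Finset.sum_div]
  apply Finset.sum_congr rfl
  intro p _
  rw [Finset.sum_const, nsmul_eq_mul]
  have h1 := card_parts p
  have h2 : (0 : ℚ) < DD p.parts := by exact_mod_cast DD_pos p.parts (fun a ha => p.parts_pos ha)
  have h3 : (0 : ℚ) < (Fintype.card α).factorial := by exact_mod_cast Nat.factorial_pos _
  unfold zz
  rw [div_eq_div_iff h3.ne' h2.ne']
  have h4 : ((#({g | g.partition = p} : Finset (Equiv.Perm α)) : ℕ) : ℚ) * DD p.parts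
      = ((Fintype.card α).factorial : ℚ) := by exact_mod_cast h1
  rw [← h4]; ring

theorem zz_cons (w : ℕ → ℚ) (k : ℕ) (s : Multiset ℕ) (hk : 0 < k) (hs : ∀ a ∈ s, 0 < a) :
    w k * zz w s = (k * (k ::ₘ s).count k : ℕ) * zz w (k ::ₘ s) := by
  unfold zz
  have h2 : (0 : ℚ) < DD s := by exact_mod_cast DD_pos s hs
  rw [DD_cons, Multiset.map_cons, Multiset.prod_cons, Multiset.count_cons_self]
  have hk' : (0 : ℚ) < k := by exact_mod_cast hk
  push_cast
  have h3 : (0 : ℚ) < (s.count k : ℚ) + 1 := by positivity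
  field_simp

theorem count_sum {n : ℕ} (p : n.Partition) : ∑ k ∈ Icc 1 n, k * p.parts.count k = n := by
  have h1 := Finset.sum_multiset_count p.parts
  rw [p.parts_sum] at h1
  conv_rhs => rw [h1]
  symm
  have h2 : p.parts.toFinset ⊆ Icc 1 n := by
    intro k hk
    rw [Multiset.mem_toFinset] at hk
    exact Finset.mem_Icc.2 ⟨p.parts_pos hk, p.le_of_mem_parts hk⟩
  have h3 : ∑ m ∈ p.parts.toFinset, p.parts.count m • m = ∑ m ∈ p.parts.toFinset, m * p.parts.count m := by
    apply Finset.sum_congr rfl; intro m _; simp [mul_comm]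
  rw [h3]
  apply Finset.sum_subset h2
  intro k _ hk
  rw [Multiset.mem_toFinset] at hk
  rw [Multiset.count_eq_zero_of_notMem hk, mul_zero]

theorem TT_rec (w : ℕ → ℚ) (n : ℕ) : (n : ℚ) * TT w n = ∑ k ∈ Icc 1 n, w k * TT w (n - k) := by
  have h1 : ∀ k ∈ Icc 1 n, w k * TT w (n - k)
      = ∑ p : n.Partition, ((k * p.parts.count k : ℕ) : ℚ) * zz w p.parts := by
    intro k hk
    obtain ⟨hk1, hkn⟩ := Finset.mem_Icc.1 hk
    unfold TT
    rw [Finset.mul_sum]
    have h2 : ∀ q : (n - k).Partition, w k * zz w q.parts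
        = (fun p : {p : n.Partition // k ∈ p.parts} => ((k * p.1.parts.count k : ℕ) : ℚ) * zz w p.1.parts)
          ((Nat.Partition.partitionWithPartEquiv hk1 hkn).symm q) := by
      intro q
      simp only [Nat.Partition.partitionWithPartEquiv_symm_apply_parts]
      exact zz_cons w k q.parts hk1 (fun a ha => q.parts_pos ha)
    rw [Finset.sum_congr rfl (fun q _ => h2 q),
      Equiv.sum_comp (Nat.Partition.partitionWithPartEquiv hk1 hkn).symm
        (fun p : {p : n.Partition // k ∈ p.parts} =>
          ((k * p.1.parts.count k : ℕ) : ℚ) * zz w p.1.parts)]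
    rw [← Finset.sum_subtype (Finset.univ.filter fun p : n.Partition => k ∈ p.parts) (by simp)
      (fun p => ((k * p.parts.count k : ℕ) : ℚ) * zz w p.parts)]
    apply Finset.sum_subset (Finset.subset_univ _)
    intro p _ hp
    have h3 : k ∉ p.parts := by simpa using hp
    rw [Multiset.count_eq_zero_of_notMem h3]; simp
  rw [Finset.sum_congr rfl h1, Finset.sum_comm]
  unfold TT
  rw [Finset.mul_sum]
  apply Finset.sum_congr rfl
  intro p _
  rw [← Finset.sum_mul]
  congr 1
  have := count_sum p
  conv_lhs => rw [← this]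
  push_cast
  rfl

theorem p_cntw : CNTW := by
  intro w W hW n
  have h : ∀ n, W n = TT w n := by
    intro n
    have h1 := sum_perm (α := Fin n) w n (Fintype.card_fin n)
    rw [hW n, h1]
  rw [h n, Finset.sum_congr rfl (fun k _ => by rw [h (n - k)])]
  exact TT_rec w n

end Pool.Agent.Helper73.RS
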